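import Mathlib
import Pool.Agent.Helper66.PF.All

/-!
# MP_7993af_nt: finiteness of `C_{m,n}` for all odd `m < n` with `m n` a square

`P m k` is the number of tuples `u : Fin m → ℕ` with `∑ (i + 1) * u i = k`, i.e. the number of
partitions of `k` into parts from `{1, ..., m}`.

Runge's method. Let `n = 2 s + 1`. Then `n! (n-1)! P n y = G(z) ^ 2 + R y` with `z = y + n(n+1)/4`,
`G` a monic rational polynomial of degree `s`, and `R` is `y ^ (s - 1)` times a constant which
depends on the parity of `y`, up to `O (y ^ (s - 2))`. If `m n` is a square, all but finitely many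
solutions of `P m x = P n y` satisfy a linear relation between the two square roots, and `m < n`
then gives a contradiction, once the two constants are not zero. They are `2 q ± w`,
`w = n s ((2 s - 1)!!) ^ 2 / 2`, and `q` is the coefficient of index `s + 1` of the square root of
the series with coefficients `c j = (2 s)(2 s - 1) ... (2 s - j + 1) n! [X ^ j] Π X / (2 sinh(i X/2))`.

* `n = 1` mod `4`: `q = 0`.
* `n = 3` mod `4`, `n + 1` not a power of two: `4 q` is not 2-integral. For `n = 15` mod `16` this
  uses the cumulants `- B_(2i)/(2i) * (1 ^ (2i) + ... + n ^ (2i))` and blocks of length `2 ^ (a-2)`,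
  `n + 1 = 2 ^ a b`.
* `n + 1 = 2 ^ a`, `a ≥ 6`: `4 q = 9` modulo `16` and `2 w = 1` modulo `16`.
* `n = 7`: as in the second case. `n = 15, 31` are squarefree, so there is no `m < n`.
-/

set_option autoImplicit false

namespace Pool.Agent.Results.MP_7993af_nt.RungePairs

open Pool.Agent.Helper30.PF

/-- For odd `3 ≤ m < n` with `m n` a perfect square the equation `P_m(x) = P_n(y)` has only
finitely many solutions in natural numbers. -/
theorem result (m n : ℕ) (hm : 3 ≤ m) (hmn : m < n) (hmo : Odd m) (hno : Odd n)
    (hsq : IsSquare (m * n)) : {p : ℕ × ℕ | P m p.1 = P n p.2}.Finite := by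
  obtain ⟨r, hr⟩ := hsq
  exact Pool.Agent.Helper66.PF.finite_all hm hmn (Nat.odd_iff.mp hmo) (Nat.odd_iff.mp hno)
    ⟨r, by rw [hr, pow_two]⟩

end Pool.Agent.Results.MP_7993af_nt.RungePairs
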