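import Pool.Agent.Helper32.RP.Main

/-!
# MP_7993af_nt: a uniform range without equal values `P_m(x) = P_n(y)`

`P m k` is the number of partitions of `k` with all parts at most `m`. Write `p(x)` for the number
of all partitions of `x` and `D(x) = p(x) - p(x-1)`.

* `P_m(x) < P_n(y)` for `1 ≤ m < n ≤ y`, `x ≤ y` (add ones; the partition `n + 1 + ... + 1` is
  missed), so a solution of `P_m(x) = P_n(y)` has `y < x` and `P_m(x) ≤ p(x-1)`.
* `D` is monotone (increase the largest part), and `x p(x) ≥ ∑ j p(x - j)` (the different parts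
  of a partition). With `p(x - j) ≥ p(x) - j D(x)` and `j ≤ 2 √x` this gives
  `D(x) ≥ p(x) / (4 √x)`, hence `p(x - j) ≤ (1 - 1/(4√x))^(j-3) p(x)`.
* So for `m ≥ 10 √x log x` the number `p(x) - P_m(x) ≤ ∑_{j > m} p(x - j)` of partitions with a
  part larger than `m` is less than `D(x)`, that is `P_m(x) > p(x-1)`.
-/

namespace Pool.Agent.Results.MP_7993af_nt.UniformRange

open Pool.Agent.Helper32.RP

/-- In every solution of `P_m(x) = P_n(y)` with `1 ≤ m < n ≤ y` one has `y < x` and
`m < 10 √x log x`. -/
theorem result (m n x y : ℕ) (hm : 1 ≤ m) (hmn : m < n) (hny : n ≤ y) (h : P m x = P n y) :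
    y < x ∧ (m : ℝ) < 10 * Real.sqrt x * Real.log x :=
  main hm hmn hny h

end Pool.Agent.Results.MP_7993af_nt.UniformRange
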